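import Mathlib
import Pool.Agent.Run7.h681.CongGaps
import Pool.Agent.Run7.h681.CongPatternFin

set_option autoImplicit false

/-!
# Bounded clusters of congruent numbers in arithmetic progressions

(1) Let `a mod M` be a residue class that contains an odd squarefree positive integer, and let `k` be
arbitrary.  There are `k` different shifts `h` such that for at least `c X ^ (1/4)` integers
`n ≤ X` all the numbers `n + h` are odd squarefree congruent numbers `≡ a` modulo `M`.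

(2) For every finite sequence `r_1, ..., r_k` of odd classes modulo `8` there are shifts
`h_1 < ... < h_k` such that for at least `c X ^ (1/4)` integers `n ≤ X` all the `n + h_i` are
squarefree congruent numbers with `n + h_i ≡ r_i` modulo `8`.

Proof of (1).  Let `A ≡ a` be odd and squarefree.  The number `A (x ^ 4 - A ^ 2 v ^ 4)` is the area of the
right triangle attached to `x ^ 2, A v ^ 2`, divided by the square of `x v`, so it is congruent for
all `x ^ 2 > A v ^ 2 > 0`, and its value minus `A x ^ 4` does not depend on `x`.  Put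
`v = W, 2 W, ..., k W` and `x = 1 + W t` where `W` is a factorial; then all the numbers are `≡ A`
modulo `W`, no prime is an obstruction, and all the factors `x ^ 2 - A v ^ 2`, `x ^ 2 + A v ^ 2` are
quadratic in `t`, so that an elementary sieve makes all of them squarefree for a positive proportion
of the `t`.

Proof of (2).  For odd `x > y` the number `(x ^ 4 - y ^ 4) / 16` is congruent, and its class modulo
`8` for `x ≡ 1` modulo `32` is given by `y` modulo `32` and can be prescribed.  The `y_i` are the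
products of the eighth power of the product `V` of the odd primes up to `32 (k + 1)` and small
numbers, and `x = 1 + 32 V t`.
-/

namespace Pool.Agent.Results.MP_05dcdc_nt.BoundedGaps

/-- `n` is the area of a right triangle with rational sides -/
def IsCongruent (n : ℕ) : Prop :=
  ∃ a b c : ℚ, 0 < a ∧ 0 < b ∧ 0 < c ∧ a ^ 2 + b ^ 2 = c ^ 2 ∧ (n : ℚ) = a * b / 2

lemma isCongruent_of {n : ℕ} (hn : n ≠ 0) (h : Pool.Agent.Run7.h681.CP.Cong n) :
    IsCongruent n := by
  obtain ⟨x, y, z, t, hx, hy, hz, ht, h1, h2⟩ := h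
  have hx' : (0 : ℚ) < x := by exact_mod_cast hx
  have hy' : (0 : ℚ) < y := by exact_mod_cast hy
  have hz' : (0 : ℚ) < z := by exact_mod_cast hz
  have ht' : (0 : ℚ) < t := by exact_mod_cast ht
  have h1' : (x : ℚ) ^ 2 + n * y ^ 2 = z ^ 2 := by exact_mod_cast h1
  have h2' : (x : ℚ) ^ 2 = n * y ^ 2 + t ^ 2 := by exact_mod_cast h2
  have hn' : (0 : ℚ) < n := by
    have := Nat.pos_of_ne_zero hn
    exact_mod_cast this
  have hlt : (t : ℚ) < z := by
    have : (t : ℚ) ^ 2 < z ^ 2 := by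
      have : (0 : ℚ) < n * y ^ 2 := by positivity
      linarith
    exact lt_of_pow_lt_pow_left₀ 2 hz'.le this
  refine ⟨(z + t) / y, (z - t) / y, 2 * x / y, by positivity, ?_, by positivity, ?_, ?_⟩
  · exact div_pos (by linarith) hy'
  · field_simp
    linear_combination (-2) * h1' - 2 * h2'
  · field_simp
    linear_combination h1' - h2'

theorem clusters (k M a : ℕ) (hM : 0 < M) (ha : ∃ m : ℕ, Squarefree m ∧ Odd m ∧ m ≡ a [MOD M]) :
    ∃ H : Finset ℕ, H.card = k ∧ ∃ c : ℝ, 0 < c ∧ ∃ X₀ : ℕ, ∀ X : ℕ, X₀ ≤ X →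
      c * (X : ℝ) ^ (1 / 4 : ℝ) ≤
        ({n : ℕ | n ≤ X ∧ ∀ h ∈ H, Squarefree (n + h) ∧ Odd (n + h) ∧ n + h ≡ a [MOD M] ∧
          IsCongruent (n + h)}.ncard : ℝ) := by
  classical
  obtain ⟨A, hA, hAo, hAa⟩ := ha
  obtain ⟨H, hH, c, hc, h⟩ := Pool.Agent.Run7.h681.CP.clusters A (2 * M) k hA (by omega)
  obtain ⟨X₀, h⟩ := Filter.eventually_atTop.1 h
  refine ⟨H, hH, c, hc, X₀, fun X hX => ?_⟩
  have hX1 := h X hX
  push_cast at hX1
  have hfin : {n : ℕ | n ≤ X ∧ ∀ h ∈ H, Squarefree (n + h) ∧ Odd (n + h) ∧ n + h ≡ a [MOD M] ∧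
          IsCongruent (n + h)}.Finite := (Set.finite_Iic X).subset fun n hn => hn.1
  have key : (((Finset.Icc 1 X).filter (Pool.Agent.Run7.h681.CP.Clus H A (2 * M))).card : ℝ) ≤
      ({n : ℕ | n ≤ X ∧ ∀ h ∈ H, Squarefree (n + h) ∧ Odd (n + h) ∧ n + h ≡ a [MOD M] ∧
          IsCongruent (n + h)}.ncard : ℝ) := by
    rw [Nat.cast_le, ← Set.ncard_coe_finset]
    apply Set.ncard_le_ncard _ hfin
    intro n hn
    obtain ⟨ha, hb⟩ := Finset.mem_filter.1 (Finset.mem_coe.1 hn)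
    refine ⟨(Finset.mem_Icc.1 ha).2, fun h hh => ?_⟩
    obtain ⟨h1, h2, h3⟩ := hb h hh
    refine ⟨h1, ?_, (h2.of_dvd (Dvd.intro_left 2 rfl)).trans hAa, isCongruent_of h1.ne_zero h3⟩
    have h4 : n + h ≡ A [MOD 2] := h2.of_dvd (Dvd.intro M rfl)
    rw [Nat.odd_iff] at hAo ⊢
    rw [← hAo]
    exact h4
  refine le_trans ?_ key
  convert hX1

theorem patterns (k : ℕ) (r : Fin k → ℕ) (hr : ∀ i, Odd (r i) ∧ r i < 8) :
    ∃ h : Fin k → ℕ, StrictMono h ∧ ∃ c : ℝ, 0 < c ∧ ∃ X₀ : ℕ, ∀ X : ℕ, X₀ ≤ X →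
      c * (X : ℝ) ^ (1 / 4 : ℝ) ≤
        ({n : ℕ | n ≤ X ∧ ∀ i, (n + h i) % 8 = r i ∧ Squarefree (n + h i) ∧
          IsCongruent (n + h i)}.ncard : ℝ) := by
  classical
  obtain ⟨r', hr'⟩ : ∃ r' : ℕ → ℕ, r' = fun i => if hi : i < k then r ⟨i, hi⟩ else 5 := ⟨_, rfl⟩
  have hr1 : ∀ i : Fin k, r' i = r i := by
    intro i
    rw [hr']
    simp only [i.2, dif_pos]
  have hr2 : ∀ i, r' i = 1 ∨ r' i = 2 ∨ r' i = 3 ∨ r' i = 5 ∨ r' i = 6 ∨ r' i = 7 := by
    intro i
    rw [hr']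
    by_cases hi : i < k
    · simp only [hi, dif_pos]
      obtain ⟨h1, h2⟩ := hr ⟨i, hi⟩
      rw [Nat.odd_iff] at h1
      omega
    · simp only [hi, dif_neg, not_false_eq_true]
      simp
  obtain ⟨h, hmono, c, hc, hX⟩ := Pool.Agent.Run7.h681.CQ.patterns k r' hr2
  obtain ⟨X₀, hX⟩ := Filter.eventually_atTop.1 hX
  refine ⟨fun i => h i, fun i j hij => hmono i j hij j.2, c, hc, X₀, fun X hX0 => ?_⟩
  have hX1 := hX X hX0
  push_cast at hX1
  have hfin : {n : ℕ | n ≤ X ∧ ∀ i : Fin k, (n + h i) % 8 = r i ∧ Squarefree (n + h i) ∧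
      IsCongruent (n + h i)}.Finite := (Set.finite_Iic X).subset fun n hn => hn.1
  have key : (((Finset.Icc 1 X).filter (Pool.Agent.Run7.h681.CQ.Pat k h r')).card : ℝ) ≤
      ({n : ℕ | n ≤ X ∧ ∀ i : Fin k, (n + h i) % 8 = r i ∧ Squarefree (n + h i) ∧
          IsCongruent (n + h i)}.ncard : ℝ) := by
    rw [Nat.cast_le, ← Set.ncard_coe_finset]
    apply Set.ncard_le_ncard _ hfin
    intro n hn
    obtain ⟨ha, hb⟩ := Finset.mem_filter.1 (Finset.mem_coe.1 hn)
    refine ⟨(Finset.mem_Icc.1 ha).2, fun i => ?_⟩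
    obtain ⟨h1, h2, h3⟩ := hb i i.2
    rw [hr1] at h2
    exact ⟨h2, h1, isCongruent_of h1.ne_zero h3⟩
  refine le_trans ?_ key
  convert hX1

/-- (1) **Bounded clusters of odd squarefree congruent numbers in arithmetic progressions.** If the
class `a` modulo `M` contains an odd squarefree positive integer, then for every `k` there is a set
`H` of `k` shifts such that for at least `c X ^ (1/4)` integers `n ≤ X` all the numbers `n + h`
with `h` in `H` are odd squarefree congruent numbers `≡ a` modulo `M`.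
(2) **All finite patterns of odd classes modulo `8`** occur among the squarefree congruent numbers
in bounded intervals. -/
theorem result :
    (∀ k M a : ℕ, 0 < M → (∃ m : ℕ, Squarefree m ∧ Odd m ∧ m ≡ a [MOD M]) →
      ∃ H : Finset ℕ, H.card = k ∧ ∃ c : ℝ, 0 < c ∧ ∃ X₀ : ℕ, ∀ X : ℕ, X₀ ≤ X →
        c * (X : ℝ) ^ (1 / 4 : ℝ) ≤
          ({n : ℕ | n ≤ X ∧ ∀ h ∈ H, Squarefree (n + h) ∧ Odd (n + h) ∧ n + h ≡ a [MOD M] ∧
            IsCongruent (n + h)}.ncard : ℝ)) ∧
    (∀ (k : ℕ) (r : Fin k → ℕ), (∀ i, Odd (r i) ∧ r i < 8) →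
      ∃ h : Fin k → ℕ, StrictMono h ∧ ∃ c : ℝ, 0 < c ∧ ∃ X₀ : ℕ, ∀ X : ℕ, X₀ ≤ X →
        c * (X : ℝ) ^ (1 / 4 : ℝ) ≤
          ({n : ℕ | n ≤ X ∧ ∀ i, (n + h i) % 8 = r i ∧ Squarefree (n + h i) ∧
            IsCongruent (n + h i)}.ncard : ℝ)) :=
  ⟨fun k M a hM ha => clusters k M a hM ha, patterns⟩

end Pool.Agent.Results.MP_05dcdc_nt.BoundedGaps
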