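import Pool.Agent.Run7.h496.CG.Real

/-!
# Odd squarefree congruent numbers all of whose prime factors are `1` modulo `2 ^ k`

For every `k ≥ 3` there are many squarefree congruent numbers `n` all of whose prime factors are `≡ 1` modulo `2 ^ k`; every
squarefree `B` with such prime factors divides one, and `n` can be required to be a square modulo any given `M` prime to `B`.
All these `n` are `≡ 1` modulo `8`, a class in which the condition `2 |A_n| = |B_n|` of the question is not automatic (it holds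
for them by Tunnell's theorem, since they are congruent).

Proof. The numbers `n` are the squarefree parts of `(x ^ K + 1) / 2`, `K = 2 ^ (k - 1)`, which is the area of a rational right
triangle since `4 ∣ K`. The prime factors are `1` modulo `2 K`. Every prime `p ≡ 1` modulo `2 ^ k` is a simple zero, and the
Chinese remainder theorem gives the divisor `B`. Different `x` with the same `n` solve one Pell equation
`X ^ 2 + 1 = 2 n z ^ 2`, `X = x ^ (K / 2)`, whose solutions more than double each time.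
-/

set_option autoImplicit false

namespace Pool.Agent.Results.MP_05dcdc_nt.PrimeFactorsOneModTwoPower

/-- `n` is congruent: the area of a right triangle with rational sides -/
def Congruent (n : ℕ) : Prop := ∃ a b c : ℚ, 0 < a ∧ 0 < b ∧ 0 < c ∧ a ^ 2 + b ^ 2 = c ^ 2 ∧ (n : ℚ) = a * b / 2

/-- The squarefree congruent numbers `n ≤ X`, divisible by `B`, which are a square modulo `M` and all of whose prime factors
are `≡ 1` modulo `2 ^ k`. -/
def Numbers (k B M : ℕ) (X : ℝ) : Set ℕ :=
  {n | (n : ℝ) ≤ X ∧ Squarefree n ∧ Congruent n ∧ B ∣ n ∧ (∀ p : ℕ, p.Prime → p ∣ n → p ≡ 1 [MOD 2 ^ k]) ∧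
    ∃ y : ℕ, n ≡ y ^ 2 [MOD M]}

/-- Let `k ≥ 3`, let `B` be a squarefree number all of whose prime factors are `≡ 1` modulo `2 ^ k` and let `M` be prime to
`B`. For all `X ≥ (8 M B ^ 2) ^ (2 ^ (k - 1))` there are at least `X ^ (1 / 2 ^ (k - 1)) / (8 M B ^ 2 log X)` squarefree
congruent numbers `n ≤ X` which are divisible by `B`, are a square modulo `M` and have only prime factors `≡ 1` modulo
`2 ^ k`. -/
theorem result (k : ℕ) (hk : 3 ≤ k) (B M : ℕ) (hM : 0 < M) (hB : Squarefree B) (hMB : M.Coprime B)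
    (hBp : ∀ p : ℕ, p.Prime → p ∣ B → p ≡ 1 [MOD 2 ^ k]) (X : ℝ) (hX : (8 * M * B ^ 2 : ℝ) ^ (2 ^ (k - 1)) ≤ X) :
    (Numbers k B M X).Finite ∧
      X ^ (1 / 2 ^ (k - 1) : ℝ) / (8 * M * B ^ 2 * Real.log X) ≤ ((Numbers k B M X).ncard : ℝ) := by
  have hfin : (Numbers k B M X).Finite := (Set.finite_Iic ⌊X⌋₊).subset fun n hn => Nat.le_floor hn.1
  refine ⟨hfin, ?_⟩
  have h := Pool.Agent.Run7.h496.CG.one_real k B M hk hM hB hMB hBp X hX
  have h1 : (1 / 2 ^ (k - 1) : ℝ) = (((2 ^ (k - 1) : ℕ) : ℝ))⁻¹ := by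
    push_cast
    rw [one_div]
  rw [h1]
  refine h.trans ?_
  have h2 : ∀ s t : Set ℕ, s ⊆ t → t.Finite → ((s.ncard : ℕ) : ℝ) ≤ (t.ncard : ℝ) := fun s t hst ht => by
    exact_mod_cast Set.ncard_le_ncard hst ht
  refine h2 _ _ ?_ hfin
  rintro n ⟨g1, g2, g3, g4, g5, g6⟩
  exact ⟨g1, g2, Pool.Agent.Run7.h496.CG.triangle n (Nat.pos_of_ne_zero g2.ne_zero) g3, g4, g5, g6⟩

end Pool.Agent.Results.MP_05dcdc_nt.PrimeFactorsOneModTwoPower
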