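import Pool.Agent.Run7.h496.CG.Real

/-!
# Odd congruent numbers near a given odd number

For every odd squarefree `c` let `P(c)` be the set of the primes `p ≡ 1` modulo `4`, not dividing `c`, modulo which `c` is a square
(a quarter of all primes in general). We show: every odd squarefree `c`, in particular in the classes `1, 3` modulo `8` in
which the condition `2 |A_n| = |B_n|` of the question is not automatic, has many multiples `c m` which are squarefree congruent
numbers of the same class (so that they satisfy this condition by Tunnell's theorem), all prime factors of `m` being in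
`P(c)` and `m` being a square modulo any given `8 M` (so that `c m` and `c` are equal up to squares in the fields `ℚ_q` for any
finite number of primes `q`, `2` included); moreover `m` can be made divisible by any squarefree `B`, prime to `M`, with prime
factors in `P(c)`.

Proof. `c (1 + 4 c ^ 2 t ^ 4)` is congruent up to squares, and `m` is the squarefree part of `1 + 4 c ^ 2 t ^ 4`, whose prime
factors are in `P(c)`: with `i = 2 c t ^ 2` one has `i ^ 2 = -1` and `c = ((1 + i) / (2 t)) ^ 2` modulo `p`. Conversely every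
prime of `P(c)` is a simple zero, and the Chinese remainder theorem gives `B` and `M`. Different `t` with the same `m` solve one
Pell equation `X ^ 2 + 1 = m z ^ 2`, `X = 2 c t ^ 2`, whose solutions more than double each time.
-/

set_option autoImplicit false

namespace Pool.Agent.Results.MP_05dcdc_nt.SplitCofactors

/-- `n` is congruent: the area of a right triangle with rational sides -/
def Congruent (n : ℕ) : Prop := ∃ a b c : ℚ, 0 < a ∧ 0 < b ∧ 0 < c ∧ a ^ 2 + b ^ 2 = c ^ 2 ∧ (n : ℚ) = a * b / 2

/-- `p` belongs to `P(c)`: `p ≡ 1` modulo `4`, `p` does not divide `c` and `c` is a square modulo `p` -/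
def Splits (c p : ℕ) : Prop := p % 4 = 1 ∧ ¬ p ∣ c ∧ IsSquare (c : ZMod p)

/-- The odd squarefree congruent numbers `n ≤ X`, `n ≡ c` modulo `8`, of the form `n = c m` with `m` divisible by `B`, a square
modulo `8 M` and composed of primes of `P(c)`. -/
def Numbers (c B M : ℕ) (X : ℝ) : Set ℕ :=
  {n | (n : ℝ) ≤ X ∧ Squarefree n ∧ Odd n ∧ Congruent n ∧ n ≡ c [MOD 8] ∧ ∃ m : ℕ, n = c * m ∧ B ∣ m ∧
    (∀ p : ℕ, p.Prime → p ∣ m → Splits c p) ∧ ∃ y : ℕ, m ≡ y ^ 2 [MOD 8 * M]}

/-- Let `c` be odd and squarefree, for instance `c ≡ 1, 3` modulo `8`, let `B` be squarefree with all prime factors in `P(c)`, and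
let `M` be prime to `B`. For all `X ≥ (4 c M B ^ 2) ^ 4` there are at least `X ^ (1/4) / (48 c M B ^ 2 log X)` odd squarefree
congruent numbers `n ≤ X`, `n ≡ c` modulo `8`, of the form `n = c m` where `m` is divisible by `B`, is a square modulo `8 M`
and has only prime factors in `P(c)`. -/
theorem result (c B M : ℕ) (hc : Squarefree c) (hodd : Odd c) (hM : 0 < M) (hB : Squarefree B) (hMB : M.Coprime B)
    (hBp : ∀ p : ℕ, p.Prime → p ∣ B → Splits c p) (X : ℝ) (hX : (4 * c * M * B ^ 2 : ℝ) ^ 4 ≤ X) :
    (Numbers c B M X).Finite ∧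
      X ^ (1 / 4 : ℝ) / (48 * c * M * B ^ 2 * Real.log X) ≤ ((Numbers c B M X).ncard : ℝ) := by
  have hfin : (Numbers c B M X).Finite := (Set.finite_Iic ⌊X⌋₊).subset fun n hn => Nat.le_floor hn.1
  refine ⟨hfin, ?_⟩
  have h := Pool.Agent.Run7.h496.CG.split_real c B M hc hM hB hMB hBp X hX
  refine h.trans ?_
  have h2 : ∀ s t : Set ℕ, s ⊆ t → t.Finite → ((s.ncard : ℕ) : ℝ) ≤ (t.ncard : ℝ) := fun s t hst ht => by
    exact_mod_cast Set.ncard_le_ncard hst ht
  refine h2 _ _ ?_ hfin
  rintro n ⟨g1, g2, g3, m, g4, g5, g6, y, g7⟩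
  have h8 := Pool.Agent.Run7.h496.CG.class_eight c m n M y g4 (fun p hp hpm => g6 p hp hpm) g7
  refine ⟨g1, g2, ?_, Pool.Agent.Run7.h496.CG.triangle n (Nat.pos_of_ne_zero g2.ne_zero) g3, h8, m, g4, g5, g6, y, g7⟩
  have h9 : n % 8 = c % 8 := h8
  have h10 := Nat.odd_iff.1 hodd
  rw [Nat.odd_iff]
  omega

end Pool.Agent.Results.MP_05dcdc_nt.SplitCofactors
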